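import Pool.Agent.H95.ESP.Stmts

/-!
Row BIN of board esp.
-/

set_option autoImplicit false

namespace ESP

theorem bin_thm : S_BIN := by
  intro n k hkn hk
  have h1 : (((n + 1 - k : ℕ) : ℝ) ^ k) / (k.factorial : ℝ) ≤ (n.choose k : ℝ) := by
    have := Nat.pow_le_choose (α := ℝ) k n
    exact_mod_cast this
  have hk0 : (0 : ℝ) < k := by exact_mod_cast hk
  have h2 : (n : ℝ) / 2 ≤ ((n + 1 - k : ℕ) : ℝ) := by
    have h3 : n ≤ 2 * (n + 1 - k) := by omega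
    have h4 : (n : ℝ) ≤ 2 * ((n + 1 - k : ℕ) : ℝ) := by exact_mod_cast h3
    linarith
  have h5 : ((n : ℝ) / 2) ^ k ≤ ((n + 1 - k : ℕ) : ℝ) ^ k := pow_le_pow_left₀ (by positivity) h2 k
  have h6 : (k.factorial : ℝ) ≤ (k : ℝ) ^ k := by exact_mod_cast Nat.factorial_le_pow k
  have h7 : (0 : ℝ) < k.factorial := by exact_mod_cast Nat.factorial_pos k
  have h8 : ((n : ℝ) / 2) ^ k / (k : ℝ) ^ k ≤ (n.choose k : ℝ) := by
    refine le_trans ?_ h1
    exact div_le_div₀ (by positivity) h5 h7 h6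
  have h9 : ((n : ℝ) / (10 * k)) ^ k = ((n : ℝ) / 2) ^ k / (k : ℝ) ^ k / 5 ^ k := by
    rw [← div_pow, ← div_pow]
    congr 1
    field_simp
    ring
  rw [h9]
  gcongr

end ESP
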